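import Mathlib

/-!
# MODULE Numeric0: from the counting inequality to `c n ^ 3`
-/

set_option autoImplicit false

namespace Pool.Agent.Helper24.CU

open Finset

/-- `m ≥ d ^ 3 / 30` from the counting inequality. -/
theorem m_ge0 {d m : ℕ} (hd : 8 ≤ d)
    (h : (d.factorial : ℝ) ^ (2 * (2 * d - 1)) ≤
      (4 * Real.exp 1 * m / (((2 * d - 1) * (2 * d) + 2 : ℕ) : ℝ)) ^
        ((2 * d - 1) * (2 * d) + 2)) :
    (d : ℝ) ^ 3 / 30 ≤ m := by
  have he : (0 : ℝ) < Real.exp 1 := Real.exp_pos 1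
  have he1 : Real.exp 1 < 2.7182818286 := Real.exp_one_lt_d9
  have he2 : 2.7182818283 < Real.exp 1 := Real.exp_one_gt_d9
  have hdR : (8 : ℝ) ≤ d := by exact_mod_cast hd
  set N : ℕ := (2 * d - 1) * (2 * d) with hN
  set X : ℝ := 4 * Real.exp 1 * m / ((N + 2 : ℕ) : ℝ) with hX
  have hX0 : 0 ≤ X := by positivity
  have hNpos : (0 : ℝ) < ((N + 2 : ℕ) : ℝ) := by positivity
  -- lower bound of the factorial
  have hfac : ((d : ℝ) / Real.exp 1) ^ d ≤ d.factorial := by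
    have h1 := Real.pow_div_factorial_le_exp (d : ℝ) (by positivity) d
    rw [div_le_iff₀ (by positivity)] at h1
    rw [div_pow, div_le_iff₀ (by positivity)]
    have h2 : Real.exp (d : ℝ) = Real.exp 1 ^ d := by rw [← Real.exp_nat_mul, mul_one]
    rw [h2] at h1
    linarith
  have h2 : ((d : ℝ) / Real.exp 1) ^ N ≤ X ^ (N + 2) := by
    calc ((d : ℝ) / Real.exp 1) ^ N = (((d : ℝ) / Real.exp 1) ^ d) ^ (2 * (2 * d - 1)) := by
          rw [← pow_mul]; congr 1; rw [hN]; ring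
      _ ≤ (d.factorial : ℝ) ^ (2 * (2 * d - 1)) := pow_le_pow_left₀ (by positivity) hfac _
      _ ≤ X ^ (N + 2) := h
  have h3 : (d : ℝ) / (2 * Real.exp 1) ≤ X := by
    by_contra hcon
    push Not at hcon
    have h4 : X ^ (N + 2) ≤ ((d : ℝ) / (2 * Real.exp 1)) ^ (N + 2) :=
      pow_le_pow_left₀ hX0 hcon.le _
    have h5 : ((d : ℝ) / (2 * Real.exp 1)) ^ (N + 2) =
        ((d : ℝ) / Real.exp 1) ^ N * (((d : ℝ) / Real.exp 1) ^ 2 / 2 ^ (N + 2)) := by
      have : (d : ℝ) / (2 * Real.exp 1) = (d : ℝ) / Real.exp 1 / 2 := by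
        field_simp
      rw [this, div_pow, pow_add]
      ring
    have h6 : ((d : ℝ) / Real.exp 1) ^ 2 / 2 ^ (N + 2) < 1 := by
      rw [div_lt_one (by positivity)]
      have h7 : ((d : ℝ) / Real.exp 1) ^ 2 ≤ (d : ℝ) ^ 2 := by
        apply pow_le_pow_left₀ (by positivity)
        rw [div_le_iff₀ he]
        nlinarith
      have h8 : (d : ℝ) ^ 2 < 2 ^ (N + 2) := by
        have h9 : d ^ 2 < 2 ^ (d ^ 2) := Nat.lt_two_pow_self
        have h10 : 2 ^ (d ^ 2) ≤ 2 ^ (N + 2) := by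
          apply Nat.pow_le_pow_right (by norm_num)
          have : d * d ≤ (2 * d - 1) * (2 * d) :=
            Nat.mul_le_mul (by omega) (by omega)
          rw [hN]
          nlinarith
        exact_mod_cast lt_of_lt_of_le h9 h10
      linarith
    have h11 : 0 < ((d : ℝ) / Real.exp 1) ^ N := by positivity
    have h12 : X ^ (N + 2) < ((d : ℝ) / Real.exp 1) ^ N := by
      calc X ^ (N + 2) ≤ ((d : ℝ) / Real.exp 1) ^ N * (((d : ℝ) / Real.exp 1) ^ 2 / 2 ^ (N + 2)) := by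
            rw [← h5]; exact h4
        _ < ((d : ℝ) / Real.exp 1) ^ N * 1 := by
            exact mul_lt_mul_of_pos_left h6 h11
        _ = ((d : ℝ) / Real.exp 1) ^ N := mul_one _
    linarith
  -- conclusion
  rw [hX, div_le_div_iff₀ (by positivity) hNpos] at h3
  have h14 : 2 * (d : ℝ) ^ 2 ≤ ((N + 2 : ℕ) : ℝ) := by
    have : 2 * d ^ 2 ≤ N + 2 := by
      have h1 : d * (2 * d) ≤ (2 * d - 1) * (2 * d) := Nat.mul_le_mul (by omega) le_rfl
      rw [hN]
      nlinarith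
    exact_mod_cast this
  have h15 : 2 * (d : ℝ) ^ 3 ≤ (d : ℝ) * ((N + 2 : ℕ) : ℝ) := by
    nlinarith
  have h16 : Real.exp 1 ^ 2 ≤ 7.5 := by nlinarith
  have h17 : 4 * Real.exp 1 * m * (2 * Real.exp 1) = 8 * Real.exp 1 ^ 2 * m := by ring
  rw [h17] at h3
  have h18 : 8 * Real.exp 1 ^ 2 * (m : ℝ) ≤ 60 * m := by
    have : (0 : ℝ) ≤ m := by positivity
    nlinarith
  linarith

theorem numeric0 (C₀ : ℕ) (hC : 1 ≤ C₀) : ∃ c : ℝ, 0 < c ∧ ∀ n m : ℕ, 1 ≤ m →
    (∀ M d : ℕ, 2 ≤ M → M ^ 3 = 2 * d → 2 ≤ d → C₀ * M ^ 3 ≤ n →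
      (d.factorial : ℝ) ^ (2 * (2 * d - 1)) ≤
        (4 * Real.exp 1 * m / (((2 * d - 1) * (2 * d) + 2 : ℕ) : ℝ)) ^
          ((2 * d - 1) * (2 * d) + 2)) →
    c * (n : ℝ) ^ 3 ≤ m := by
  have hCR : (1 : ℝ) ≤ C₀ := by exact_mod_cast hC
  refine ⟨1 / (122880 * (C₀ : ℝ) ^ 3), by positivity, fun n m hm H => ?_⟩
  have hmR : (1 : ℝ) ≤ m := by exact_mod_cast hm
  rcases lt_or_ge n (C₀ * 64) with hsmall | hbig
  · -- small n
    have h1 : (n : ℝ) ≤ C₀ * 64 := by exact_mod_cast hsmall.le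
    have h2 : (n : ℝ) ^ 3 ≤ (C₀ * 64) ^ 3 := pow_le_pow_left₀ (by positivity) h1 3
    rw [one_div, inv_mul_le_iff₀ (by positivity)]
    have h3 : 0 < (C₀ : ℝ) ^ 3 := by positivity
    rcases Nat.eq_zero_or_pos n with h0 | hn0
    · subst h0
      have : (0 : ℝ) ≤ 122880 * (C₀ : ℝ) ^ 3 * m := by positivity
      simpa using this
    · rcases lt_or_ge n (C₀ * 8) with hs2 | hs2
      · have h4 : (n : ℝ) ≤ C₀ * 8 := by exact_mod_cast hs2.le
        have h5 : (n : ℝ) ^ 3 ≤ (C₀ * 8) ^ 3 := pow_le_pow_left₀ (by positivity) h4 3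
        nlinarith
      · -- `M = 2`, `d = 4`
        have h4 := H 2 4 le_rfl (by norm_num) (by norm_num) (by omega)
        -- `24 ^ 14 ≤ (4 e m / 58) ^ 58`
        have he1 : Real.exp 1 < 2.7182818286 := Real.exp_one_lt_d9
        norm_num [Nat.factorial] at h4
        by_contra hcon
        push Not at hcon
        have h6 : (m : ℝ) ≤ 5 := by
          by_contra hc2
          push Not at hc2
          have : (C₀ * 64 : ℝ) ^ 3 = 262144 * (C₀ : ℝ) ^ 3 := by ring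
          nlinarith
        have h7 : 4 * Real.exp 1 * m / 58 ≤ 1 := by
          rw [div_le_one (by norm_num)]
          nlinarith [Real.exp_pos 1]
        have h8 : (4 * Real.exp 1 * m / 58) ^ 58 ≤ 1 := pow_le_one₀ (by positivity) h7
        linarith
  · -- large n
    have hex : ∃ k : ℕ, C₀ * (8 * (k + 1) ^ 3) > n := by
      refine ⟨n, ?_⟩
      have h1 : n + 1 ≤ (n + 1) ^ 3 := Nat.le_self_pow (by norm_num) _
      nlinarith [Nat.mul_le_mul hC h1]
    classical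
    set k := Nat.find hex with hk
    have hk1 : n < C₀ * (8 * (k + 1) ^ 3) := Nat.find_spec hex
    have hk2 : 2 ≤ k := by
      by_contra hcon
      push Not at hcon
      have : (k + 1) ^ 3 ≤ 2 ^ 3 := Nat.pow_le_pow_left (by omega) 3
      nlinarith
    have hk3 : C₀ * (8 * k ^ 3) ≤ n := by
      have h1 : ¬ (C₀ * (8 * (k - 1 + 1) ^ 3) > n) := Nat.find_min hex (by omega)
      have h2 : k - 1 + 1 = k := by omega
      rw [h2] at h1
      omega
    have hd8 : 8 ≤ 4 * k ^ 3 := by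
      have : 2 ^ 3 ≤ k ^ 3 := Nat.pow_le_pow_left hk2 3
      omega
    have key := m_ge0 hd8 (H (2 * k) (4 * k ^ 3) (by omega) (by ring) (by omega)
      (by rw [mul_pow]; norm_num; exact hk3))
    push_cast at key
    have hkR : (2 : ℝ) ≤ k := by exact_mod_cast hk2
    have hn1 : (n : ℝ) ≤ C₀ * (8 * ((k : ℝ) + 1) ^ 3) := by exact_mod_cast hk1.le
    have hn2 : (n : ℝ) ≤ C₀ * (27 * (k : ℝ) ^ 3) := by
      refine le_trans hn1 ?_
      apply mul_le_mul_of_nonneg_left _ (by positivity)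
      have h1 : 2 * ((k : ℝ) + 1) ≤ 3 * k := by linarith
      have h2 : (2 * ((k : ℝ) + 1)) ^ 3 ≤ (3 * k) ^ 3 := pow_le_pow_left₀ (by positivity) h1 3
      calc 8 * ((k : ℝ) + 1) ^ 3 = (2 * ((k : ℝ) + 1)) ^ 3 := by ring
        _ ≤ (3 * (k : ℝ)) ^ 3 := h2
        _ = 27 * (k : ℝ) ^ 3 := by ring
    have hn3 : (n : ℝ) ^ 3 ≤ (C₀ * (27 * (k : ℝ) ^ 3)) ^ 3 := pow_le_pow_left₀ (by positivity) hn2 3
    rw [one_div, inv_mul_le_iff₀ (by positivity)]
    calc (n : ℝ) ^ 3 ≤ (C₀ * (27 * (k : ℝ) ^ 3)) ^ 3 := hn3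
      _ = (C₀ : ℝ) ^ 3 * (19683 * ((k : ℝ) ^ 3) ^ 3) := by ring
      _ ≤ (C₀ : ℝ) ^ 3 * (122880 * ((4 * (k : ℝ) ^ 3) ^ 3 / 30)) := by
          apply mul_le_mul_of_nonneg_left _ (by positivity)
          have : (0 : ℝ) ≤ ((k : ℝ) ^ 3) ^ 3 := by positivity
          nlinarith
      _ ≤ (C₀ : ℝ) ^ 3 * (122880 * m) := by
          apply mul_le_mul_of_nonneg_left _ (by positivity)
          linarith
      _ = 122880 * (C₀ : ℝ) ^ 3 * m := by ring

end Pool.Agent.Helper24.CU
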