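import Mathlib

/-!
# MODULE Numeric3: from the counting inequality to `c n ^ 3 / (log n) ^ 6`
-/

set_option autoImplicit false

namespace Pool.Agent.Helper24.CU

open Finset

/-- `m ≥ p ^ 3 / 120` from the counting inequality. -/
theorem m_ge {d p m : ℕ} (hp : p = 2 * d) (hd : 8 ≤ d)
    (h : (d.factorial : ℝ) ^ (2 * p) ≤
      (4 * Real.exp 1 * m / ((2 * d * p : ℕ) + 2)) ^ (2 * d * p + 2)) :
    (p : ℝ) ^ 3 / 120 ≤ m := by
  have he : (0 : ℝ) < Real.exp 1 := Real.exp_pos 1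
  have he1 : Real.exp 1 < 2.7182818286 := Real.exp_one_lt_d9
  have he2 : 2.7182818283 < Real.exp 1 := Real.exp_one_gt_d9
  have hdR : (8 : ℝ) ≤ d := by exact_mod_cast hd
  set N : ℕ := 2 * d * p with hN
  set X : ℝ := 4 * Real.exp 1 * m / ((N : ℝ) + 2) with hX
  have hX0 : 0 ≤ X := by positivity
  have hNpos : (0 : ℝ) < (N : ℝ) + 2 := by positivity
  -- lower bound of the factorial
  have hfac : ((d : ℝ) / Real.exp 1) ^ d ≤ d.factorial := by
    have h1 := Real.pow_div_factorial_le_exp (d : ℝ) (by positivity) d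
    rw [div_le_iff₀ (by positivity)] at h1
    rw [div_pow, div_le_iff₀ (by positivity)]
    have h2 : Real.exp (d : ℝ) = Real.exp 1 ^ d := by rw [← Real.exp_nat_mul, mul_one]
    rw [h2] at h1
    linarith
  have h2 : ((d : ℝ) / Real.exp 1) ^ N ≤ X ^ (N + 2) := by
    calc ((d : ℝ) / Real.exp 1) ^ N = (((d : ℝ) / Real.exp 1) ^ d) ^ (2 * p) := by
          rw [← pow_mul]; congr 1; rw [hN]; ring
      _ ≤ (d.factorial : ℝ) ^ (2 * p) := pow_le_pow_left₀ (by positivity) hfac _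
      _ ≤ X ^ (N + 2) := h
  have h3 : (d : ℝ) / (2 * Real.exp 1) ≤ X := by
    by_contra hcon
    push Not at hcon
    have h4 : X ^ (N + 2) ≤ ((d : ℝ) / (2 * Real.exp 1)) ^ (N + 2) :=
      pow_le_pow_left₀ hX0 hcon.le _
    have h5 : ((d : ℝ) / (2 * Real.exp 1)) ^ (N + 2) =
        ((d : ℝ) / Real.exp 1) ^ N * (((d : ℝ) / Real.exp 1) ^ 2 / 2 ^ (N + 2)) := by
      have : (d : ℝ) / (2 * Real.exp 1) = (d : ℝ) / Real.exp 1 / 2 := by
        field_simp
      rw [this, div_pow, pow_add]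
      ring
    have h6 : ((d : ℝ) / Real.exp 1) ^ 2 / 2 ^ (N + 2) < 1 := by
      rw [div_lt_one (by positivity)]
      have h7 : ((d : ℝ) / Real.exp 1) ^ 2 ≤ (d : ℝ) ^ 2 := by
        apply pow_le_pow_left₀ (by positivity)
        rw [div_le_iff₀ he]
        nlinarith
      have h8 : (d : ℝ) ^ 2 < 2 ^ (N + 2) := by
        have h9 : d ^ 2 < 2 ^ (d ^ 2) := Nat.lt_two_pow_self
        have h10 : 2 ^ (d ^ 2) ≤ 2 ^ (N + 2) := by
          apply Nat.pow_le_pow_right (by norm_num)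
          rw [hN, hp]
          nlinarith
        exact_mod_cast lt_of_lt_of_le h9 h10
      linarith
    have h11 : 0 < ((d : ℝ) / Real.exp 1) ^ N := by positivity
    have h12 : X ^ (N + 2) < ((d : ℝ) / Real.exp 1) ^ N := by
      calc X ^ (N + 2) ≤ ((d : ℝ) / Real.exp 1) ^ N * (((d : ℝ) / Real.exp 1) ^ 2 / 2 ^ (N + 2)) := by
            rw [← h5]; exact h4
        _ < ((d : ℝ) / Real.exp 1) ^ N * 1 := by
            exact mul_lt_mul_of_pos_left h6 h11
        _ = ((d : ℝ) / Real.exp 1) ^ N := mul_one _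
    linarith
  -- conclusion
  rw [hX, div_le_div_iff₀ (by positivity) hNpos] at h3
  have h13 : (p : ℝ) = 2 * d := by rw [hp]; push_cast; ring
  have h14 : (N : ℝ) = (p : ℝ) ^ 2 := by rw [hN]; push_cast; rw [h13]; ring
  rw [h14] at h3
  have h15 : (p : ℝ) ^ 3 / 2 ≤ (d : ℝ) * ((p : ℝ) ^ 2 + 2) := by
    rw [h13]; nlinarith
  have h16 : Real.exp 1 ^ 2 ≤ 7.5 := by nlinarith
  have h17 : 4 * Real.exp 1 * m * (2 * Real.exp 1) = 8 * Real.exp 1 ^ 2 * m := by ring
  rw [h17] at h3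
  have h18 : 8 * Real.exp 1 ^ 2 * (m : ℝ) ≤ 60 * m := by
    have : (0 : ℝ) ≤ m := by positivity
    nlinarith
  linarith

theorem numeric3 : ∃ c : ℝ, 0 < c ∧ ∀ n m : ℕ, 2 ≤ n → 1 ≤ m →
    (∀ B d p : ℕ, 1 ≤ B → p = 2 ^ B → p = 2 * d → 60 * p * (B + 1) ^ 2 ≤ n →
      (d.factorial : ℝ) ^ (2 * p) ≤
        (4 * Real.exp 1 * m / ((2 * d * p : ℕ) + 2)) ^ (2 * d * p + 2)) →
    c * (n : ℝ) ^ 3 / (Real.log n) ^ 6 ≤ m := by
  refine ⟨1 / 10 ^ 20, by positivity, fun n m hn hm H => ?_⟩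
  have hnR : (2 : ℝ) ≤ n := by exact_mod_cast hn
  have hmR : (1 : ℝ) ≤ m := by exact_mod_cast hm
  have hl2 : (0.6931471803 : ℝ) < Real.log 2 := Real.log_two_gt_d9
  have hlog : Real.log 2 ≤ Real.log n := Real.log_le_log (by norm_num) hnR
  have hlogpos : 0 < Real.log n := by linarith
  have hl6 : (0.1 : ℝ) ≤ Real.log n ^ 6 := by
    have : (0.69 : ℝ) ^ 6 ≤ Real.log n ^ 6 := pow_le_pow_left₀ (by norm_num) (by linarith) 6
    refine le_trans ?_ this
    norm_num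
  rcases lt_or_ge n 24000 with hsmall | hbig
  · -- small n
    have h1 : (n : ℝ) ≤ 24000 := by exact_mod_cast hsmall.le
    have h2 : (n : ℝ) ^ 3 ≤ 24000 ^ 3 := pow_le_pow_left₀ (by positivity) h1 3
    rw [div_le_iff₀ (by positivity)]
    have h3 : (0.1 : ℝ) ≤ m * Real.log n ^ 6 := by nlinarith
    refine le_trans ?_ h3
    have : 1 / 10 ^ 20 * (n : ℝ) ^ 3 ≤ 1 / 10 ^ 20 * 24000 ^ 3 := by
      apply mul_le_mul_of_nonneg_left h2; positivity
    refine le_trans this ?_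
    norm_num
  · -- large n
    have hex : ∃ B : ℕ, 60 * 2 ^ (B + 1) * (B + 2) ^ 2 > n := by
      refine ⟨n, ?_⟩
      have h1 : n < 2 ^ n := Nat.lt_two_pow_self
      have h2 : 2 ^ n ≤ 2 ^ (n + 1) := Nat.pow_le_pow_right (by norm_num) (by omega)
      nlinarith [Nat.pow_le_pow_right (show 0 < 2 by norm_num) (show n ≤ n + 1 by omega),
        Nat.zero_le (2 ^ (n + 1) * (n + 2) ^ 2), Nat.zero_le n,
        Nat.mul_le_mul_left (60 * 2 ^ (n + 1)) (Nat.one_le_pow 2 (n + 2) (by omega))]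
    classical
    set B := Nat.find hex with hB
    have hB1 : n < 60 * 2 ^ (B + 1) * (B + 2) ^ 2 := Nat.find_spec hex
    have hB4 : 4 ≤ B := by
      by_contra hcon
      push Not at hcon
      have : B = 0 ∨ B = 1 ∨ B = 2 ∨ B = 3 := by omega
      rcases this with h | h | h | h <;> rw [h] at hB1 <;> norm_num at hB1 <;> omega
    have hB2 : 60 * 2 ^ B * (B + 1) ^ 2 ≤ n := by
      have h1 : ¬ (60 * 2 ^ (B - 1 + 1) * (B - 1 + 2) ^ 2 > n) :=
        Nat.find_min hex (by omega)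
      have h2 : B - 1 + 1 = B := by omega
      have h3 : B - 1 + 2 = B + 1 := by omega
      rw [h2, h3] at h1
      omega
    have hp : 2 ^ B = 2 * 2 ^ (B - 1) := by
      rw [← pow_succ']; congr 1; omega
    have hd8 : 8 ≤ 2 ^ (B - 1) := by
      calc 8 = 2 ^ 3 := by norm_num
        _ ≤ 2 ^ (B - 1) := Nat.pow_le_pow_right (by norm_num) (by omega)
    have key := m_ge hp hd8 (H B (2 ^ (B - 1)) (2 ^ B) (by omega) rfl hp hB2)
    push_cast at key
    -- compare with n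
    have hBlog : (B : ℝ) + 2 ≤ 1.45 * Real.log n := by
      have h1 : (60 * 2 ^ B : ℝ) ≤ n := by
        have : 60 * 2 ^ B * 1 ≤ 60 * 2 ^ B * (B + 1) ^ 2 :=
          Nat.mul_le_mul_left _ (Nat.one_le_pow _ _ (by omega))
        have h2 : 60 * 2 ^ B ≤ n := by omega
        exact_mod_cast h2
      have h2 : Real.log (60 * 2 ^ B) ≤ Real.log n := Real.log_le_log (by positivity) h1
      rw [Real.log_mul (by norm_num) (by positivity), Real.log_pow] at h2
      have h3 : Real.log 2 * 4 ≤ Real.log 60 := by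
        have : Real.log (2 ^ 4) ≤ Real.log 60 := Real.log_le_log (by norm_num) (by norm_num)
        rw [Real.log_pow] at this
        push_cast at this
        linarith
      have hBpos : (0 : ℝ) ≤ B := by positivity
      nlinarith
    have hnp : (n : ℝ) ≤ 120 * 2 ^ B * ((B : ℝ) + 2) ^ 2 := by
      have h1 : (n : ℝ) < 60 * 2 ^ (B + 1) * ((B : ℝ) + 2) ^ 2 := by exact_mod_cast hB1
      rw [pow_succ] at h1
      linarith
    have hnp2 : (n : ℝ) ≤ 2 ^ B * (300 * Real.log n ^ 2) := by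
      have h1 : ((B : ℝ) + 2) ^ 2 ≤ (1.45 * Real.log n) ^ 2 :=
        pow_le_pow_left₀ (by positivity) hBlog 2
      have h2 : (0 : ℝ) < 2 ^ B := by positivity
      have h3 : 120 * (2 : ℝ) ^ B * ((B : ℝ) + 2) ^ 2 ≤ 120 * 2 ^ B * (1.45 * Real.log n) ^ 2 :=
        mul_le_mul_of_nonneg_left h1 (by positivity)
      have h4 : 120 * (2 : ℝ) ^ B * (1.45 * Real.log n) ^ 2 =
          2 ^ B * (252.3 * Real.log n ^ 2) := by ring
      have h5 : 2 ^ B * (252.3 * Real.log n ^ 2) ≤ 2 ^ B * (300 * Real.log n ^ 2) := by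
        apply mul_le_mul_of_nonneg_left _ h2.le
        have : 0 ≤ Real.log n ^ 2 := by positivity
        linarith
      linarith
    have hn3 : (n : ℝ) ^ 3 ≤ (2 ^ B) ^ 3 * (300 ^ 3 * Real.log n ^ 6) := by
      have h1 : (n : ℝ) ^ 3 ≤ (2 ^ B * (300 * Real.log n ^ 2)) ^ 3 :=
        pow_le_pow_left₀ (by positivity) hnp2 3
      have h2 : ((2 : ℝ) ^ B * (300 * Real.log n ^ 2)) ^ 3 =
          (2 ^ B) ^ 3 * (300 ^ 3 * Real.log n ^ 6) := by ring
      linarith
    rw [div_le_iff₀ (by positivity)]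
    have h1 : 1 / 10 ^ 20 * (n : ℝ) ^ 3 ≤
        1 / 10 ^ 20 * ((2 ^ B) ^ 3 * (300 ^ 3 * Real.log n ^ 6)) :=
      mul_le_mul_of_nonneg_left hn3 (by positivity)
    have h2 : 1 / 10 ^ 20 * (((2 : ℝ) ^ B) ^ 3 * (300 ^ 3 * Real.log n ^ 6)) ≤
        (2 ^ B) ^ 3 / 120 * Real.log n ^ 6 := by
      have h3 : 0 ≤ ((2 : ℝ) ^ B) ^ 3 * Real.log n ^ 6 := by positivity
      nlinarith
    have h3 : ((2 : ℝ) ^ B) ^ 3 / 120 * Real.log n ^ 6 ≤ m * Real.log n ^ 6 :=
      mul_le_mul_of_nonneg_right key (by positivity)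
    linarith

end Pool.Agent.Helper24.CU
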