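import Mathlib

/-!
# MODULE Polar: the square of a number as a sum of squares of sums of two binary digits
-/

set_option autoImplicit false

namespace Pool.Agent.Helper24.CU

open Finset

/-- The `b`-th binary digit. -/
def bit (b r : ℕ) : ℕ := (r / 2 ^ b) % 2

theorem bit_le (b r : ℕ) : bit b r ≤ 1 := by
  unfold bit; omega

theorem sum_bit (Q : ℕ) : ∀ r : ℕ, r < 2 ^ Q → ∑ b : Fin Q, 2 ^ (b : ℕ) * bit b r = r := by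
  induction Q with
  | zero => intro r hr; simp at hr; simp [hr]
  | succ Q ih =>
    intro r hr
    rw [Fin.sum_univ_succ]
    have h1 : ∀ b : Fin Q, 2 ^ ((b.succ : Fin (Q + 1)) : ℕ) * bit (b.succ : Fin (Q + 1)) r =
        2 * (2 ^ (b : ℕ) * bit b (r / 2)) := by
      intro b
      unfold bit
      rw [Fin.val_succ, pow_succ, Nat.div_div_eq_div_mul, mul_comm 2 (2 ^ (b : ℕ))]
      ring
    rw [sum_congr rfl fun b _ => h1 b, ← mul_sum, ih (r / 2) (by rw [pow_succ] at hr; omega)]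
    unfold bit
    simp
    omega

/-- The weight of the pair `j` of digits. -/
noncomputable def pw (Q : ℕ) (j : Fin Q × Fin Q) : ℝ :=
  2 ^ (j.1 : ℕ) * 2 ^ (j.2 : ℕ) / 2 - if j.1 = j.2 then (2 ^ Q - 1) * 2 ^ (j.1 : ℕ) / 4 else 0

theorem geom (Q : ℕ) : ∑ b : Fin Q, (2 : ℝ) ^ (b : ℕ) = 2 ^ Q - 1 := by
  rw [Fin.sum_univ_eq_sum_range (fun b => (2 : ℝ) ^ b), geom_sum_eq (by norm_num)]
  norm_num

theorem polar (Q : ℕ) (x : Fin Q → ℝ) :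
    ∑ j : Fin Q × Fin Q, pw Q j * (x j.1 + x j.2) ^ 2 = (∑ b : Fin Q, 2 ^ (b : ℕ) * x b) ^ 2 := by
  have h0 : (∑ b : Fin Q, 2 ^ (b : ℕ) * x b) ^ 2 =
      ∑ b : Fin Q, ∑ c : Fin Q, (2 ^ (b : ℕ) * x b) * (2 ^ (c : ℕ) * x c) := by
    rw [sq, sum_mul_sum]
  have h1 : ∑ j : Fin Q × Fin Q, pw Q j * (x j.1 + x j.2) ^ 2 =
      ∑ b : Fin Q, ∑ c : Fin Q, (2 ^ (b : ℕ) * 2 ^ (c : ℕ) / 2 * (x b + x c) ^ 2 -
        if b = c then (2 ^ Q - 1) * 2 ^ (b : ℕ) * x b ^ 2 else 0) := by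
    rw [Fintype.sum_prod_type]
    refine sum_congr rfl fun b _ => sum_congr rfl fun c _ => ?_
    unfold pw
    by_cases h : b = c
    · subst h; simp; ring
    · simp [h]
  rw [h1, h0]
  simp only [sum_sub_distrib, sum_ite_eq, mem_univ, if_true]
  have h2 : ∑ b : Fin Q, ∑ c : Fin Q, (2 : ℝ) ^ (b : ℕ) * 2 ^ (c : ℕ) / 2 * (x b + x c) ^ 2 =
      ∑ b : Fin Q, ∑ c : Fin Q, (2 ^ (b : ℕ) * x b) * (2 ^ (c : ℕ) * x c) +
      (∑ b : Fin Q, ∑ c : Fin Q, (2 : ℝ) ^ (b : ℕ) * 2 ^ (c : ℕ) / 2 * x b ^ 2 +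
        ∑ b : Fin Q, ∑ c : Fin Q, (2 : ℝ) ^ (b : ℕ) * 2 ^ (c : ℕ) / 2 * x c ^ 2) := by
    rw [← sum_add_distrib, ← sum_add_distrib]
    refine sum_congr rfl fun b _ => ?_
    rw [← sum_add_distrib, ← sum_add_distrib]
    refine sum_congr rfl fun c _ => ?_
    ring
  have h3 : ∑ b : Fin Q, ∑ c : Fin Q, (2 : ℝ) ^ (b : ℕ) * 2 ^ (c : ℕ) / 2 * x c ^ 2 =
      ∑ b : Fin Q, ∑ c : Fin Q, (2 : ℝ) ^ (b : ℕ) * 2 ^ (c : ℕ) / 2 * x b ^ 2 := by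
    rw [sum_comm]
    refine sum_congr rfl fun b _ => sum_congr rfl fun c _ => ?_
    ring
  have h4 : ∑ b : Fin Q, ∑ c : Fin Q, (2 : ℝ) ^ (b : ℕ) * 2 ^ (c : ℕ) / 2 * x b ^ 2 =
      ∑ b : Fin Q, (2 ^ Q - 1) * 2 ^ (b : ℕ) * x b ^ 2 / 2 := by
    refine sum_congr rfl fun b _ => ?_
    have : ∀ c : Fin Q, (2 : ℝ) ^ (b : ℕ) * 2 ^ (c : ℕ) / 2 * x b ^ 2 =
        2 ^ (c : ℕ) * (2 ^ (b : ℕ) / 2 * x b ^ 2) := fun c => by ring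
    rw [sum_congr rfl fun c _ => this c, ← sum_mul, geom]
    ring
  rw [h2, h3, h4, ← sum_add_distrib]
  have : ∀ b : Fin Q, ((2 : ℝ) ^ Q - 1) * 2 ^ (b : ℕ) * x b ^ 2 / 2 +
      (2 ^ Q - 1) * 2 ^ (b : ℕ) * x b ^ 2 / 2 = (2 ^ Q - 1) * 2 ^ (b : ℕ) * x b ^ 2 :=
    fun b => by ring
  rw [sum_congr rfl fun b _ => this b]
  ring

end Pool.Agent.Helper24.CU
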